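import Pool.Agent.MVS.Stmts

/-!
# MVS, row CCT: cotangent comparison
-/

set_option autoImplicit false

noncomputable section

open Filter Topology Set

namespace Pool.Agent.MVS.H20

theorem mono_Ioo {f f' : ℝ → ℝ} {a b : ℝ} (h : ∀ t ∈ Ioo a b, HasDerivAt f (f' t) t)
    (h0 : ∀ t ∈ Ioo a b, 0 ≤ f' t) : MonotoneOn f (Ioo a b) := by
  refine monotoneOn_of_deriv_nonneg (convex_Ioo a b)
    (fun t ht => (h t ht).continuousAt.continuousWithinAt) ?_ ?_
  · rw [interior_Ioo]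
    exact fun t ht => (h t ht).differentiableAt.differentiableWithinAt
  · rw [interior_Ioo]
    intro t ht
    rw [(h t ht).deriv]
    exact h0 t ht

theorem lim_le {f : ℝ → ℝ} {b L t : ℝ} (hm : MonotoneOn f (Ioo 0 b))
    (hl : Tendsto f (𝓝[>] 0) (𝓝 L)) (ht : t ∈ Ioo 0 b) : L ≤ f t := by
  refine le_of_tendsto hl ?_
  filter_upwards [Ioo_mem_nhdsGT ht.1] with s hs
  exact hm ⟨hs.1, hs.2.trans ht.2⟩ ht hs.2.le

theorem sin_slope : Tendsto (fun s : ℝ => Real.sin s / s) (𝓝[>] 0) (𝓝 1) := by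
  have h := (Real.hasDerivAt_sin 0).tendsto_slope_zero_right
  rw [Real.cos_zero] at h
  refine h.congr fun s => ?_
  simp only [zero_add, Real.sin_zero, sub_zero, smul_eq_mul]
  rw [div_eq_inv_mul]

theorem cos_lim : Tendsto Real.cos (𝓝[>] 0) (𝓝 1) := by
  have h := Real.continuous_cos.continuousAt (x := 0)
  have h2 : Tendsto Real.cos (𝓝 0) (𝓝 (Real.cos 0)) := h
  rw [Real.cos_zero] at h2
  exact h2.mono_left nhdsWithin_le_nhds

theorem dsq (t : ℝ) : HasDerivAt (fun s => (Real.sin s) ^ 2) (2 * Real.sin t * Real.cos t) t := by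
  have h := (Real.hasDerivAt_sin t).mul (Real.hasDerivAt_sin t)
  have e : (fun s => (Real.sin s) ^ 2) = Real.sin * Real.sin := by
    funext s
    simp only [Pi.mul_apply]
    ring
  rw [e]
  have e2 : 2 * Real.sin t * Real.cos t = Real.cos t * Real.sin t + Real.sin t * Real.cos t := by
    ring
  rw [e2]
  exact h

theorem cct : CctStatement := by
  intro α β β' δ hα hβ hα0 hcs hδ0 hβ' ha0 hb0
  have pi := Real.pi_pos
  -- slopes
  have sα : Tendsto (fun s : ℝ => α s / s) (𝓝[>] 0) (𝓝 0) := by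
    have h := (hα 0).tendsto_slope_zero_right
    rw [hb0, mul_zero] at h
    refine h.congr fun s => ?_
    simp only [zero_add, ha0, sub_zero, smul_eq_mul]
    rw [div_eq_inv_mul]
  have sβ : Tendsto (fun s : ℝ => β s / s) (𝓝[>] 0) (𝓝 (β' 0)) := by
    have h := (hβ 0).tendsto_slope_zero_right
    refine h.congr fun s => ?_
    simp only [zero_add, hb0, sub_zero, smul_eq_mul]
    rw [div_eq_inv_mul]
  have lβ : Tendsto β (𝓝[>] 0) (𝓝 0) := by
    have h : Tendsto β (𝓝 0) (𝓝 (β 0)) := (hβ 0).continuousAt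
    rw [hb0] at h
    exact h.mono_left nhdsWithin_le_nhds
  have lα : Tendsto α (𝓝[>] 0) (𝓝 0) := by
    have h : Tendsto α (𝓝 0) (𝓝 (α 0)) := (hα 0).continuousAt
    rw [ha0] at h
    exact h.mono_left nhdsWithin_le_nhds
  have hsin : ∀ t ∈ Ioo (0 : ℝ) Real.pi, 0 < Real.sin t := fun t ht =>
    Real.sin_pos_of_pos_of_lt_pi ht.1 ht.2
  -- `q`
  have dq : ∀ t ∈ Ioo (0 : ℝ) Real.pi, HasDerivAt (fun s => β s - Real.cos s / Real.sin s * α s)
      (β' t - (((-Real.sin t) * Real.sin t - Real.cos t * Real.cos t) / Real.sin t ^ 2 * α t +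
        Real.cos t / Real.sin t * (2 * β t))) t := by
    intro t ht
    exact (hβ t).sub
      (((Real.hasDerivAt_cos t).div (Real.hasDerivAt_sin t) (hsin t ht).ne').mul (hα t))
  have pq : ∀ t ∈ Ioo (0 : ℝ) Real.pi, 0 ≤ β' t -
      (((-Real.sin t) * Real.sin t - Real.cos t * Real.cos t) / Real.sin t ^ 2 * α t +
        Real.cos t / Real.sin t * (2 * β t)) := by
    intro t ht
    have hs := hsin t ht
    obtain ⟨c, hc⟩ : ∃ c : ℝ, c = Real.cos t / Real.sin t := ⟨_, rfl⟩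
    have e1 : ((-Real.sin t) * Real.sin t - Real.cos t * Real.cos t) / Real.sin t ^ 2 =
        -(1 + c ^ 2) := by
      rw [hc]
      field_simp
      ring
    rw [e1, ← hc]
    have h1 := hβ' t
    have h2 : 0 ≤ δ t - 2 * c * β t + c ^ 2 * α t := by
      have k1 := hcs t
      have k2 := hα0 t
      have k3 := hδ0 t
      by_contra hneg
      push Not at hneg
      have k4 : δ t + c ^ 2 * α t < 2 * c * β t := by linarith
      have k5 : 0 ≤ δ t + c ^ 2 * α t := by positivity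
      have k6 : (δ t + c ^ 2 * α t) ^ 2 < (2 * c * β t) ^ 2 := pow_lt_pow_left₀ k4 k5 (by norm_num)
      have k7 : (2 * c * β t) ^ 2 ≤ 4 * c ^ 2 * (α t * δ t) := by
        have : (2 * c * β t) ^ 2 = 4 * c ^ 2 * β t ^ 2 := by ring
        rw [this]
        exact mul_le_mul_of_nonneg_left k1 (by positivity)
      nlinarith [sq_nonneg (δ t - c ^ 2 * α t)]
    linarith
  have mq := mono_Ioo dq pq
  have lq : Tendsto (fun s => β s - Real.cos s / Real.sin s * α s) (𝓝[>] 0) (𝓝 0) := by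
    have h1 : Tendsto (fun s => β s - Real.cos s * (Real.sin s / s)⁻¹ * (α s / s)) (𝓝[>] 0)
        (𝓝 (0 - 1 * 1⁻¹ * 0)) :=
      lβ.sub ((cos_lim.mul (sin_slope.inv₀ one_ne_zero)).mul sα)
    have e : (0 : ℝ) - 1 * 1⁻¹ * 0 = 0 := by norm_num
    rw [e] at h1
    refine h1.congr' ?_
    filter_upwards [Ioo_mem_nhdsGT pi] with s hs
    have := (hsin s hs).ne'
    have := hs.1.ne'
    field_simp
  have q0 : ∀ t ∈ Ioo (0 : ℝ) Real.pi, 0 ≤ β t - Real.cos t / Real.sin t * α t :=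
    fun t ht => lim_le (f := fun s => β s - Real.cos s / Real.sin s * α s) mq lq ht
  -- `α / sin²`
  have dg : ∀ t ∈ Ioo (0 : ℝ) Real.pi, HasDerivAt (fun s => α s / (Real.sin s) ^ 2)
      ((2 * β t * (Real.sin t) ^ 2 - α t * (2 * Real.sin t * Real.cos t)) /
        ((Real.sin t) ^ 2) ^ 2) t := by
    intro t ht
    have hd := dsq t
    exact (hα t).div hd (pow_ne_zero 2 (hsin t ht).ne')
  have pg : ∀ t ∈ Ioo (0 : ℝ) Real.pi, 0 ≤
      (2 * β t * (Real.sin t) ^ 2 - α t * (2 * Real.sin t * Real.cos t)) /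
        ((Real.sin t) ^ 2) ^ 2 := by
    intro t ht
    have hs := hsin t ht
    have h1 := q0 t ht
    have h2 : 2 * β t * (Real.sin t) ^ 2 - α t * (2 * Real.sin t * Real.cos t) =
        2 * (Real.sin t) ^ 2 * (β t - Real.cos t / Real.sin t * α t) := by
      field_simp
    rw [h2]
    positivity
  have mg := mono_Ioo dg pg
  have lg : Tendsto (fun s => α s / (Real.sin s) ^ 2) (𝓝[>] 0) (𝓝 (β' 0)) := by
    have hpi2 : (0 : ℝ) < Real.pi / 2 := by positivity
    refine HasDerivAt.lhopital_zero_right_on_Ioo hpi2 (f' := fun s => 2 * β s)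
      (g' := fun s => 2 * Real.sin s * Real.cos s) (fun s _ => hα s) (fun s _ => ?_)
      (fun s hs => ?_) lα ?_ ?_
    · exact dsq s
    · have h1 := hsin s ⟨hs.1, by linarith [hs.2]⟩
      have h2 : 0 < Real.cos s := Real.cos_pos_of_mem_Ioo ⟨by linarith [hs.1], hs.2⟩
      positivity
    · have h : Tendsto (fun s => (Real.sin s) ^ 2) (𝓝 0) (𝓝 ((Real.sin 0) ^ 2)) :=
        (Real.continuous_sin.pow 2).continuousAt
      rw [Real.sin_zero] at h
      norm_num at h
      exact h.mono_left nhdsWithin_le_nhds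
    · have h1 : Tendsto (fun s => (β s / s) * (Real.sin s / s)⁻¹ * (Real.cos s)⁻¹) (𝓝[>] 0)
          (𝓝 (β' 0 * 1⁻¹ * 1⁻¹)) :=
        (sβ.mul (sin_slope.inv₀ one_ne_zero)).mul (cos_lim.inv₀ one_ne_zero)
      have e : β' 0 * 1⁻¹ * 1⁻¹ = β' 0 := by norm_num
      rw [e] at h1
      refine h1.congr' ?_
      filter_upwards [Ioo_mem_nhdsGT hpi2] with s hs
      have h2 := (hsin s ⟨hs.1, by linarith [hs.2]⟩).ne'
      have h3 : Real.cos s ≠ 0 := (Real.cos_pos_of_mem_Ioo ⟨by linarith [hs.1], hs.2⟩).ne'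
      have h4 := hs.1.ne'
      field_simp
  intro t ht0 htpi
  have ht : t ∈ Ioo (0 : ℝ) Real.pi := ⟨ht0, htpi⟩
  refine ⟨?_, ?_⟩
  · rw [Real.cot_eq_cos_div_sin]
    linarith [q0 t ht]
  · have h1 := lim_le (f := fun s => α s / (Real.sin s) ^ 2) mg lg ht
    rw [le_div_iff₀ (pow_pos (hsin t ht) 2)] at h1
    exact h1

end Pool.Agent.MVS.H20
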